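import Mathlib
import Pool.Agent.H756Z.HypC

set_option autoImplicit false

open Pool.Agent.H756Z.Hyp

namespace Pool.Agent.Results.MP_33c00b_an.AWeakNotHypercyclic

/-- There are a complex Banach space and a bounded linear operator on it that is weakly
1-sequentially hypercyclic but not hypercyclic. -/
theorem result : ∃ (B : Type) (_ : NormedAddCommGroup B) (_ : NormedSpace ℂ B)
    (_ : CompleteSpace B) (T : B →L[ℂ] B), WeaklyOneSeqHypercyclic T ∧ ¬ Hypercyclic T :=
  main

end Pool.Agent.Results.MP_33c00b_an.AWeakNotHypercyclic
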